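import Pool.Agent.H60.Tri.LL2B

set_option autoImplicit false

open MeasureTheory Set Complex Metric Filter Topology
open scoped Real ENNReal NNReal FourierTransform ComplexConjugate

namespace Pool.Agent.H24.Tri

theorem l2_fourier (a : ℂ → ℂ) (z : ℂ) :
    𝓕 a z = ∫ ξ, Complex.exp (((-(2 * π * (conj ξ * z).re) : ℝ) : ℂ) * Complex.I) * a ξ := by
  rw [Real.fourier_eq']
  congr 1
  ext ξ
  rw [tb_inner, smul_eq_mul]
  congr 3
  push_cast
  ring

theorem l2_fourier_shift (a : ℂ → ℂ) (v z : ℂ) :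
    𝓕 (fun x => a (x + v)) z =
      Complex.exp (((2 * π * (conj v * z).re : ℝ) : ℂ) * Complex.I) * 𝓕 a z := by
  rw [l2_fourier, l2_fourier, ← integral_const_mul]
  rw [← integral_add_right_eq_self (μ := volume) (fun ξ : ℂ =>
    Complex.exp (((2 * π * (conj v * z).re : ℝ) : ℂ) * Complex.I) *
      (Complex.exp (((-(2 * π * (conj ξ * z).re) : ℝ) : ℂ) * Complex.I) * a ξ)) v]
  congr 1
  ext ξ
  rw [← mul_assoc, ← Complex.exp_add]
  congr 2
  have : (conj (ξ + v) * z).re = (conj ξ * z).re + (conj v * z).re := by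
    rw [map_add, add_mul, Complex.add_re]
  rw [this]
  push_cast
  ring

theorem l2_nice_shift (a : ℂ → ℂ) (ha : Nice a) (v : ℂ) : Nice (fun x => a (x + v)) := by
  constructor
  · exact ha.smooth.comp (contDiff_id.add contDiff_const)
  · exact ha.compact.comp_homeomorph (Homeomorph.addRight v)

theorem l2_tbS_fourier (a : ℂ → ℂ) (ha : Nice a) :
    ((𝓕 (tbS a ha) : SchwartzMap ℂ ℂ) : ℂ → ℂ) = 𝓕 a := by
  rw [SchwartzMap.fourier_coe]
  rfl

/-- autocorrelation as Fourier transform of the spectral density -/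
theorem l2_autocorr (a : ℂ → ℂ) (ha : Nice a) (v : ℂ) :
    ∫ x, a x * conj (a (x + v)) =
      ∫ ξ, ((‖𝓕 a ξ‖ ^ 2 : ℝ) : ℂ) *
        Complex.exp (((-(2 * π * (conj ξ * v).re) : ℝ) : ℂ) * Complex.I) := by
  have h := SchwartzMap.integral_inner_fourier_fourier (tbS _ (l2_nice_shift a ha v)) (tbS a ha)
  simp only [l2_tbS_fourier, tbS_coe, RCLike.inner_apply] at h
  rw [← h]
  congr 1
  ext ξ
  rw [l2_fourier_shift, map_mul, ← Complex.exp_conj, map_mul, Complex.conj_I, Complex.conj_ofReal]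
  have e1 : (conj v * ξ).re = (conj ξ * v).re := by
    simp only [Complex.mul_re, Complex.conj_re, Complex.conj_im]
    ring
  rw [e1]
  have e2 : ((‖𝓕 a ξ‖ ^ 2 : ℝ) : ℂ) = 𝓕 a ξ * conj (𝓕 a ξ) := by
    rw [Complex.mul_conj, Complex.normSq_eq_norm_sq]
  rw [e2]
  have e3 : Complex.exp (((2 * π * (conj ξ * v).re : ℝ) : ℂ) * -Complex.I) =
      Complex.exp (((-(2 * π * (conj ξ * v).re) : ℝ) : ℂ) * Complex.I) := by
    congr 1
    push_cast
    ring
  rw [e3]
  ring

theorem l2_nice_win (r : ℝ) (hr : 0 < r) (G : ℂ → ℂ)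
    (hG : ContDiff ℝ ((⊤ : ℕ∞) : WithTop ℕ∞) G) (y : ℂ) :
    Nice (fun x : ℂ => (psr r (x - y) : ℂ) * G x) := by
  constructor
  · apply ContDiff.mul _ hG
    exact Complex.ofRealCLM.contDiff.comp ((psr_smooth r).comp (contDiff_id.sub contDiff_const))
  · apply HasCompactSupport.mul_right
    have h1 : HasCompactSupport (fun x : ℂ => psr r (x - y)) := by
      have := (psr_compact hr).comp_homeomorph (Homeomorph.addRight (-y))
      simpa [Function.comp_def, sub_eq_add_neg] using this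
    exact h1.comp_left (g := fun t : ℝ => (t : ℂ)) (by simp)

theorem LL2 (α : ℂ) (hα : α ≠ 0) : ∀ K δ : ℝ, 1 ≤ K → 0 < δ → ∃ H₀ : ℝ, 1 ≤ H₀ ∧ ∀ H : ℝ,
    H₀ ≤ H → ∃ n₀ : ℕ, ∀ n : ℕ, n₀ ≤ n → 0 < n → ∀ CG r : ℝ, 0 < CG → 0 < r →
    ∃ R₀ : ℝ, 1 ≤ R₀ ∧ ∀ R : ℝ, R₀ ≤ R → ∀ G : ℂ → ℂ,
      ContDiff ℝ ((⊤ : ℕ∞) : WithTop ℕ∞) G → (∀ x, ‖G x‖ ≤ CG) → ∀ (y : ℂ) (m : ℝ),
      (∀ ξ₀ : ℂ, ∫ ξ in closedBall ξ₀ (R / K), specM r G y ξ ≤ m) →
      avgA α n (H / R) r G y ≤ (∫ ξ, specM r G y ξ) * m + δ * (∫ ξ, specM r G y ξ) ^ 2 + δ := by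
  intro K δ hK hδ
  obtain ⟨H₀, hH₀, n₀, hmain⟩ := l2_spectral α hα K δ hK hδ
  refine ⟨H₀, hH₀, fun H hH => ⟨n₀, fun n hn hn0 CG r hCG hr => ?_⟩⟩
  have hH1 : 1 ≤ H := hH₀.trans hH
  have hn' : (0 : ℝ) < n := by exact_mod_cast hn0
  obtain ⟨Cl, hCl, hlip⟩ := psr_lip
  -- the constant in the replacement of `A` by `B`
  set P := ∫ x, psr r x with hP
  have hP0 : 0 ≤ P := integral_nonneg fun x => psr_nonneg hr x
  set C₁ := CG ^ 2 * (Cl / r ^ 2) * P * ‖α‖ * H with hC₁
  have hC₁0 : 0 ≤ C₁ := by positivity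
  refine ⟨max 1 (C₁ * (2 * CG ^ 2 + 1) / min 1 δ + C₁), le_max_left _ _, ?_⟩
  intro R hR G hG hGb y m hm
  have hR1 : 1 ≤ R := (le_max_left _ _).trans hR
  have hR0 : 0 < R := by linarith
  have hR2 : C₁ * (2 * CG ^ 2 + 1) / min 1 δ + C₁ ≤ R := (le_max_right _ _).trans hR
  set η := H / R with hη
  have hη0 : 0 < η := by positivity
  set E := C₁ / R with hE
  have hE0 : 0 ≤ E := by positivity
  have hmin : 0 < min 1 δ := lt_min one_pos hδ
  have hE1 : E ≤ 1 := by
    rw [hE, div_le_one hR0]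
    have : 0 ≤ C₁ * (2 * CG ^ 2 + 1) / min 1 δ := by positivity
    linarith
  have hE2 : E * (2 * CG ^ 2 + 1) ≤ δ := by
    have h1 : C₁ * (2 * CG ^ 2 + 1) / min 1 δ ≤ R := by linarith
    rw [div_le_iff₀ hmin] at h1
    calc E * (2 * CG ^ 2 + 1) = C₁ * (2 * CG ^ 2 + 1) / R := by rw [hE]; ring
      _ ≤ min 1 δ := by
          rw [div_le_iff₀ hR0]
          linarith
      _ ≤ δ := min_le_right _ _
  -- the windowed function
  set F : ℂ → ℂ := fun x => (psr r (x - y) : ℂ) * G x with hF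
  have hFn : Nice F := l2_nice_win r hr G hG y
  have hspec : ∀ ξ, specM r G y ξ = ‖𝓕 F ξ‖ ^ 2 := fun ξ => rfl
  have hF2 : MemLp (𝓕 F) 2 volume := by
    rw [← l2_tbS_fourier F hFn]
    exact SchwartzMap.memLp _ 2 volume
  have hFc : Continuous (𝓕 F) := by
    rw [← l2_tbS_fourier F hFn]
    exact SchwartzMap.continuous _
  have hspec_int : Integrable (fun ξ => specM r G y ξ) := by
    simp only [hspec]
    exact hF2.norm.integrable_sq
  have hspec_meas : Measurable fun ξ => ENNReal.ofReal (specM r G y ξ) := by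
    simp only [hspec]
    exact (ENNReal.continuous_ofReal.comp (hFc.norm.pow 2)).measurable
  have hspec0 : ∀ ξ, 0 ≤ specM r G y ξ := fun ξ => by rw [hspec]; positivity
  set μ : Measure ℂ := volume.withDensity (fun ξ => ENNReal.ofReal (specM r G y ξ)) with hμ
  have hμset : ∀ s : Set ℂ, MeasurableSet s → μ.real s = ∫ ξ in s, specM r G y ξ := by
    intro s hs
    rw [measureReal_def, hμ, withDensity_apply _ hs, integral_eq_lintegral_of_nonneg_ae]
    · filter_upwards with ξ
      exact hspec0 ξ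
    · exact hspec_int.aestronglyMeasurable.restrict
  have hμf : IsFiniteMeasure μ := by
    rw [hμ]
    exact isFiniteMeasure_withDensity_ofReal hspec_int.2
  have hμuniv : μ.real univ = ∫ ξ, specM r G y ξ := by
    rw [hμset univ MeasurableSet.univ, setIntegral_univ]
  have hsp := hmain H hH n hn hn0 R hR0 μ hμf m (fun ξ₀ => by
    rw [hμset _ measurableSet_closedBall]
    exact hm ξ₀)
  rw [hμuniv] at hsp
  -- the characteristic function is the autocorrelation
  have hB : ∀ v : ℂ, l2B μ v = ∫ x, F x * conj (F (x + v)) := by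
    intro v
    rw [l2_autocorr F hFn v]
    unfold l2B
    rw [hμ, integral_withDensity_eq_integral_toReal_smul hspec_meas
      (Filter.Eventually.of_forall fun ξ => ENNReal.ofReal_lt_top)]
    congr 1
    ext ξ
    rw [ENNReal.toReal_ofReal (hspec0 ξ), hspec, Complex.real_smul]
  -- mass bound
  have hmass : μ.real univ ≤ CG ^ 2 := by
    rw [hμuniv]
    simp only [hspec]
    have h1 := SchwartzMap.integral_norm_sq_fourier (tbS F hFn)
    rw [l2_tbS_fourier, tbS_coe] at h1
    rw [h1]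
    calc ∫ x, ‖F x‖ ^ 2 ≤ ∫ x, CG ^ 2 * psr r (x - y) ^ 2 := by
          apply integral_mono_of_nonneg
          · filter_upwards with x
            positivity
          · apply Integrable.const_mul
            have : Integrable fun x : ℂ => psr r x ^ 2 := by
              apply Continuous.integrable_of_hasCompactSupport
              · exact (psr_smooth r).continuous.pow 2
              · exact (psr_compact hr).comp_left (g := fun t : ℝ => t ^ 2) (by simp)
            exact this.comp_sub_right y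
          · filter_upwards with x
            rw [hF]
            simp only [norm_mul, Complex.norm_real, Real.norm_eq_abs, mul_pow, sq_abs]
            rw [mul_comm]
            gcongr
            exact hGb x
      _ = CG ^ 2 := by
          rw [integral_const_mul, integral_sub_right_eq_self (fun x : ℂ => psr r x ^ 2) y,
            psr_sq_integral hr, mul_one]
  -- replacement
  have hAB : ∀ v : ℂ, ‖v‖ ≤ ‖α‖ * η → ‖acorr r G y v‖ ^ 2 ≤ ‖l2B μ v‖ ^ 2 + δ := by
    intro v hv
    have hcont1 : Continuous fun x : ℂ => psr r (x - y) :=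
      (psr_smooth r).continuous.comp (continuous_id.sub continuous_const)
    have hcs : HasCompactSupport fun x : ℂ => psr r (x - y) := by
      have := (psr_compact hr).comp_homeomorph (Homeomorph.addRight (-y))
      simpa [Function.comp_def, sub_eq_add_neg] using this
    have hGc := hG.continuous
    have hi1 : Integrable fun x : ℂ => ((psr r (x - y) ^ 2 : ℝ) : ℂ) * G x * conj (G (x + v)) := by
      apply Continuous.integrable_of_hasCompactSupport
      · fun_prop
      · apply HasCompactSupport.mul_right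
        apply HasCompactSupport.mul_right
        exact hcs.comp_left (g := fun t : ℝ => ((t ^ 2 : ℝ) : ℂ)) (by simp)
    have hcont2 : Continuous fun x : ℂ => psr r (x + v - y) :=
      (psr_smooth r).continuous.comp (by fun_prop)
    have hi2 : Integrable fun x : ℂ => F x * conj (F (x + v)) := by
      apply Continuous.integrable_of_hasCompactSupport
      · rw [hF]
        fun_prop
      · exact hFn.compact.mul_right
    have hdiff : ‖acorr r G y v - l2B μ v‖ ≤ E := by
      rw [hB]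
      unfold acorr
      rw [← integral_sub hi1 hi2]
      have hpt : ∀ x : ℂ, ‖((psr r (x - y) ^ 2 : ℝ) : ℂ) * G x * conj (G (x + v)) -
          F x * conj (F (x + v))‖ ≤ CG ^ 2 * (Cl / r ^ 2) * ‖v‖ * psr r (x - y) := by
        intro x
        have e1 : ((psr r (x - y) ^ 2 : ℝ) : ℂ) * G x * conj (G (x + v)) -
            F x * conj (F (x + v)) =
            ((psr r (x - y) * (psr r (x - y) - psr r (x + v - y)) : ℝ) : ℂ) *
              (G x * conj (G (x + v))) := by
          rw [hF]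
          simp only [map_mul, Complex.conj_ofReal]
          push_cast
          ring
        rw [e1, norm_mul, norm_mul, Complex.norm_real, Real.norm_eq_abs, abs_mul,
          abs_of_nonneg (psr_nonneg hr _), Complex.norm_conj]
        have e2 : |psr r (x - y) - psr r (x + v - y)| ≤ Cl / r ^ 2 * ‖v‖ := by
          have := hlip r hr (x - y) (x + v - y)
          rwa [show x - y - (x + v - y) = -v by ring, norm_neg] at this
        calc psr r (x - y) * |psr r (x - y) - psr r (x + v - y)| * (‖G x‖ * ‖G (x + v)‖)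
            ≤ psr r (x - y) * (Cl / r ^ 2 * ‖v‖) * (CG * CG) := by
              have := psr_nonneg hr (x - y)
              gcongr
              · exact hGb x
              · exact hGb _
          _ = CG ^ 2 * (Cl / r ^ 2) * ‖v‖ * psr r (x - y) := by ring
      calc _ ≤ ∫ x : ℂ, CG ^ 2 * (Cl / r ^ 2) * ‖v‖ * psr r (x - y) := by
            apply norm_integral_le_of_norm_le
            · exact (hcont1.integrable_of_hasCompactSupport hcs).const_mul _
            · filter_upwards with x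
              exact hpt x
        _ = CG ^ 2 * (Cl / r ^ 2) * ‖v‖ * P := by
            rw [integral_const_mul, integral_sub_right_eq_self (fun x : ℂ => psr r x) y]
        _ ≤ CG ^ 2 * (Cl / r ^ 2) * (‖α‖ * η) * P := by gcongr
        _ = E := by
            rw [hE, hC₁, hη]
            ring
    have hA : ‖acorr r G y v‖ ≤ ‖l2B μ v‖ + E := by
      calc ‖acorr r G y v‖ = ‖l2B μ v + (acorr r G y v - l2B μ v)‖ := by
            congr 1
            ring
        _ ≤ _ := norm_add_le _ _
        _ ≤ _ := by gcongr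
    have hB1 : ‖l2B μ v‖ ≤ CG ^ 2 := (l2B_norm_le μ v).trans hmass
    have h0 : 0 ≤ ‖acorr r G y v‖ := norm_nonneg _
    have h0' : 0 ≤ ‖l2B μ v‖ := norm_nonneg _
    calc ‖acorr r G y v‖ ^ 2 ≤ (‖l2B μ v‖ + E) ^ 2 := by gcongr
      _ = ‖l2B μ v‖ ^ 2 + E * (2 * ‖l2B μ v‖ + E) := by ring
      _ ≤ ‖l2B μ v‖ ^ 2 + E * (2 * CG ^ 2 + 1) := by gcongr
      _ ≤ ‖l2B μ v‖ ^ 2 + δ := by linarith
  -- integrate the replacement
  have hcB : ∀ w : ℂ, Continuous fun q : ℝ × ℝ => ‖l2B μ (((q.1 - q.2 : ℝ) : ℂ) * w)‖ ^ 2 := by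
    intro w
    apply Continuous.pow
    apply Continuous.norm
    apply (l2B_continuous μ).comp
    fun_prop
  have hterm : ∀ j ∈ Finset.range n, (η ^ 2)⁻¹ * ∫ h in Ioc 0 η, ∫ h' in Ioc 0 η,
      ‖acorr r G y (((h - h' : ℝ) : ℂ) * (Complex.I * α * cis (2 * π * j / n)))‖ ^ 2 ≤
      ((η ^ 2)⁻¹ * ∫ h in Ioc 0 η, ∫ h' in Ioc 0 η,
      ‖l2B μ (((h - h' : ℝ) : ℂ) * (Complex.I * α * cis (2 * π * j / n)))‖ ^ 2) + δ := by
    intro j _
    set w : ℂ := Complex.I * α * cis (2 * π * j / n) with hw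
    have hwn : ‖w‖ = ‖α‖ := by
      rw [hw, norm_mul, norm_mul, Complex.norm_I, one_mul, lw_norm_cis, mul_one]
    have hin : ∀ h : ℝ, Integrable (fun h' : ℝ => ‖l2B μ (((h - h' : ℝ) : ℂ) * w)‖ ^ 2 + δ)
        (volume.restrict (Ioc 0 η)) := by
      intro h
      have hc : Continuous fun h' : ℝ => ‖l2B μ (((h - h' : ℝ) : ℂ) * w)‖ ^ 2 + δ :=
        ((hcB w).comp (by fun_prop : Continuous fun h' : ℝ => (h, h'))).add continuous_const
      exact (hc.integrableOn_Icc (a := 0) (b := η)).mono_set Ioc_subset_Icc_self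
    have hc2 : Continuous fun h : ℝ => ∫ h' in Ioc 0 η, (‖l2B μ (((h - h' : ℝ) : ℂ) * w)‖ ^ 2 + δ) := by
      apply continuous_of_dominated (bound := fun _ => (μ.real univ) ^ 2 + δ)
      · intro h
        exact (hin h).aestronglyMeasurable
      · intro h
        filter_upwards with h'
        rw [Real.norm_of_nonneg (by positivity)]
        gcongr
        exact l2B_norm_le μ _
      · exact integrable_const _
      · filter_upwards with h'
        exact ((hcB w).comp (by fun_prop : Continuous fun h : ℝ => (h, h'))).add continuous_const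
    have h1 : ∫ h in Ioc 0 η, ∫ h' in Ioc 0 η, ‖acorr r G y (((h - h' : ℝ) : ℂ) * w)‖ ^ 2 ≤
        ∫ h in Ioc 0 η, ∫ h' in Ioc 0 η, (‖l2B μ (((h - h' : ℝ) : ℂ) * w)‖ ^ 2 + δ) := by
      apply integral_mono_of_nonneg
      · filter_upwards with h
        apply integral_nonneg
        intro h'
        positivity
      · exact (hc2.integrableOn_Icc (a := 0) (b := η)).mono_set Ioc_subset_Icc_self
      · filter_upwards [ae_restrict_mem measurableSet_Ioc] with h hh
        apply integral_mono_of_nonneg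
        · filter_upwards with h'
          positivity
        · exact hin h
        · filter_upwards [ae_restrict_mem measurableSet_Ioc] with h' hh'
          apply hAB
          rw [norm_mul, Complex.norm_real, Real.norm_eq_abs, hwn, mul_comm]
          gcongr
          rw [abs_le]
          constructor <;> linarith [hh.1, hh.2, hh'.1, hh'.2]
    have h2 : ∀ h : ℝ, ∫ h' in Ioc 0 η, (‖l2B μ (((h - h' : ℝ) : ℂ) * w)‖ ^ 2 + δ) =
        (∫ h' in Ioc 0 η, ‖l2B μ (((h - h' : ℝ) : ℂ) * w)‖ ^ 2) + η * δ := by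
      intro h
      have hi : Integrable (fun h' : ℝ => ‖l2B μ (((h - h' : ℝ) : ℂ) * w)‖ ^ 2)
          (volume.restrict (Ioc 0 η)) := by
        refine ((hin h).sub (integrable_const δ)).congr (Filter.Eventually.of_forall fun h' => ?_)
        simp only [Pi.sub_apply, add_sub_cancel_right]
      rw [integral_add hi (integrable_const _)]
      congr 1
      simp [hη0.le]
    have h3 : ∫ h in Ioc 0 η, ((∫ h' in Ioc 0 η, ‖l2B μ (((h - h' : ℝ) : ℂ) * w)‖ ^ 2) + η * δ) =
        (∫ h in Ioc 0 η, ∫ h' in Ioc 0 η, ‖l2B μ (((h - h' : ℝ) : ℂ) * w)‖ ^ 2) +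
          η * (η * δ) := by
      have hi : Integrable (fun h : ℝ => ∫ h' in Ioc 0 η, ‖l2B μ (((h - h' : ℝ) : ℂ) * w)‖ ^ 2)
          (volume.restrict (Ioc 0 η)) := by
        have h4 : Integrable (fun h : ℝ => ∫ h' in Ioc 0 η,
            (‖l2B μ (((h - h' : ℝ) : ℂ) * w)‖ ^ 2 + δ)) (volume.restrict (Ioc 0 η)) :=
          (hc2.integrableOn_Icc (a := 0) (b := η)).mono_set Ioc_subset_Icc_self
        simp only [h2] at h4
        refine (h4.sub (integrable_const (η * δ))).congr (Filter.Eventually.of_forall fun h => ?_)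
        simp only [Pi.sub_apply, add_sub_cancel_right]
      rw [integral_add hi (integrable_const _)]
      congr 1
      simp [hη0.le]
    simp only [h2] at h1
    rw [h3] at h1
    calc (η ^ 2)⁻¹ * ∫ h in Ioc 0 η, ∫ h' in Ioc 0 η,
          ‖acorr r G y (((h - h' : ℝ) : ℂ) * w)‖ ^ 2 ≤
        (η ^ 2)⁻¹ * ((∫ h in Ioc 0 η, ∫ h' in Ioc 0 η,
          ‖l2B μ (((h - h' : ℝ) : ℂ) * w)‖ ^ 2) + η * (η * δ)) := by gcongr
      _ = _ := by
        rw [mul_add]
        congr 1
        field_simp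
  calc avgA α n (H / R) r G y ≤ (n : ℝ)⁻¹ * ∑ j ∈ Finset.range n, (((η ^ 2)⁻¹ *
        ∫ h in Ioc 0 η, ∫ h' in Ioc 0 η,
        ‖l2B μ (((h - h' : ℝ) : ℂ) * (Complex.I * α * cis (2 * π * j / n)))‖ ^ 2) + δ) := by
        unfold avgA
        exact mul_le_mul_of_nonneg_left (Finset.sum_le_sum hterm) (by positivity)
    _ = (n : ℝ)⁻¹ * (∑ j ∈ Finset.range n, ((η ^ 2)⁻¹ *
        ∫ h in Ioc 0 η, ∫ h' in Ioc 0 η,
        ‖l2B μ (((h - h' : ℝ) : ℂ) * (Complex.I * α * cis (2 * π * j / n)))‖ ^ 2)) + δ := by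
        rw [Finset.sum_add_distrib, Finset.sum_const, Finset.card_range, nsmul_eq_mul, mul_add]
        congr 1
        field_simp
    _ ≤ _ := by gcongr

end Pool.Agent.H24.Tri
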