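import Pool.Agent.H24.Tri.DefsLoc
import Pool.Agent.H24.Tri.LW

set_option autoImplicit false

open MeasureTheory Set Complex Metric Filter Topology
open scoped Real ENNReal NNReal FourierTransform ComplexConjugate

namespace Pool.Agent.H24.Tri

/-! ## averages of a bump of the cosine over equally spaced directions -/

noncomputable def l2q (κ x : ℝ) : ℝ := κ ^ 2 / (κ ^ 2 + x ^ 2)

theorem l2q_nonneg (κ x : ℝ) : 0 ≤ l2q κ x := by
  unfold l2q
  positivity

theorem l2q_le_one (κ x : ℝ) : l2q κ x ≤ 1 := by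
  unfold l2q
  apply div_le_one_of_le₀
  · nlinarith [sq_nonneg x]
  · positivity

theorem l2q_cont (κ : ℝ) (hκ : 0 < κ) : Continuous (l2q κ) := by
  unfold l2q
  apply Continuous.div continuous_const (by fun_prop)
  intro x
  positivity

theorem l2q_lip (κ : ℝ) (hκ : 0 < κ) (a b : ℝ) (ha : |a| ≤ 1) (hb : |b| ≤ 1) :
    l2q κ a ≤ l2q κ b + 2 / κ ^ 2 * |a - b| := by
  unfold l2q
  have h1 : 0 < κ ^ 2 + a ^ 2 := by positivity
  have h2 : 0 < κ ^ 2 + b ^ 2 := by positivity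
  have h3 : κ ^ 2 / (κ ^ 2 + a ^ 2) - κ ^ 2 / (κ ^ 2 + b ^ 2) =
      κ ^ 2 * ((b - a) * (b + a)) / ((κ ^ 2 + a ^ 2) * (κ ^ 2 + b ^ 2)) := by
    field_simp
    ring
  have h4 : κ ^ 2 * ((b - a) * (b + a)) / ((κ ^ 2 + a ^ 2) * (κ ^ 2 + b ^ 2)) ≤
      2 / κ ^ 2 * |a - b| := by
    rw [div_le_iff₀ (by positivity)]
    have h5 : (b - a) * (b + a) ≤ 2 * |a - b| := by
      have : (b - a) * (b + a) ≤ |b - a| * |b + a| := by
        rw [← abs_mul]
        exact le_abs_self _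
      have h6 : |b + a| ≤ 2 := by
        calc |b + a| ≤ |b| + |a| := abs_add_le _ _
          _ ≤ 2 := by linarith
      have h7 : |b - a| = |a - b| := abs_sub_comm _ _
      calc (b - a) * (b + a) ≤ |b - a| * |b + a| := this
        _ ≤ |b - a| * 2 := by gcongr
        _ = 2 * |a - b| := by rw [h7]; ring
    have h8 : κ ^ 2 * κ ^ 2 ≤ (κ ^ 2 + a ^ 2) * (κ ^ 2 + b ^ 2) := by
      gcongr <;> nlinarith [sq_nonneg a, sq_nonneg b]
    calc κ ^ 2 * ((b - a) * (b + a)) ≤ κ ^ 2 * (2 * |a - b|) := by gcongr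
      _ = 2 / κ ^ 2 * |a - b| * (κ ^ 2 * κ ^ 2) := by field_simp
      _ ≤ 2 / κ ^ 2 * |a - b| * ((κ ^ 2 + a ^ 2) * (κ ^ 2 + b ^ 2)) := by gcongr
  linarith

theorem l2q_int (ε : ℝ) (hε : 0 < ε) :
    ∃ κ : ℝ, 0 < κ ∧ ∫ θ in (0 : ℝ)..(2 * π), l2q κ (Real.cos θ) ≤ ε := by
  have hz : volume {θ : ℝ | Real.cos θ = 0} = 0 := by
    have : {θ : ℝ | Real.cos θ = 0} = Set.range (fun k : ℤ => (2 * (k : ℝ) + 1) * π / 2) := by
      ext θ
      simp only [Set.mem_ofPred_eq, Set.mem_range, Real.cos_eq_zero_iff]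
      constructor
      · rintro ⟨k, hk⟩
        exact ⟨k, hk.symm⟩
      · rintro ⟨k, hk⟩
        exact ⟨k, hk.symm⟩
    rw [this]
    exact (Set.countable_range _).measure_zero _
  have hlim : Tendsto (fun m : ℕ => ∫ θ in (0 : ℝ)..(2 * π), l2q (1 / ((m : ℝ) + 1)) (Real.cos θ))
      atTop (𝓝 (∫ θ in (0 : ℝ)..(2 * π), (0 : ℝ))) := by
    apply intervalIntegral.tendsto_integral_filter_of_dominated_convergence (fun _ => (1 : ℝ))
    · filter_upwards with m
      apply Continuous.aestronglyMeasurable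
      exact (l2q_cont _ (by positivity)).comp Real.continuous_cos
    · filter_upwards with m
      filter_upwards with θ _
      rw [Real.norm_of_nonneg (l2q_nonneg _ _)]
      exact l2q_le_one _ _
    · exact intervalIntegrable_const
    · have : ∀ᵐ θ : ℝ, Real.cos θ ≠ 0 := by
        rw [ae_iff]
        simpa using hz
      filter_upwards [this] with θ hθ _
      have h1 : Tendsto (fun m : ℕ => (1 / ((m : ℝ) + 1)) ^ 2) atTop (𝓝 ((0 : ℝ) ^ 2)) :=
        (tendsto_one_div_add_atTop_nhds_zero_nat (𝕜 := ℝ)).pow 2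
      have h2 : Tendsto (fun m : ℕ => l2q (1 / ((m : ℝ) + 1)) (Real.cos θ)) atTop
          (𝓝 ((0 : ℝ) ^ 2 / ((0 : ℝ) ^ 2 + Real.cos θ ^ 2))) := by
        unfold l2q
        apply h1.div (h1.add_const _)
        positivity
      simpa using h2
  have h0 : (∫ θ in (0 : ℝ)..(2 * π), (0 : ℝ)) = 0 := by simp
  rw [h0] at hlim
  have := (hlim.eventually (gt_mem_nhds hε)).exists
  obtain ⟨m, hm⟩ := this
  exact ⟨1 / ((m : ℝ) + 1), by positivity, hm.le⟩

theorem l2_sum (ε : ℝ) (hε : 0 < ε) : ∃ κ : ℝ, 0 < κ ∧ ∃ n₀ : ℕ, ∀ n : ℕ, n₀ ≤ n → 0 < n →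
    ∀ φ : ℝ, (n : ℝ)⁻¹ * ∑ j ∈ Finset.range n, l2q κ (Real.cos (φ - 2 * π * j / n)) ≤ ε := by
  obtain ⟨κ, hκ, hint⟩ := l2q_int (π * ε) (by positivity)
  refine ⟨κ, hκ, ⌈8 * π / (κ ^ 2 * ε)⌉₊, fun n hn hn0 φ => ?_⟩
  have hn' : (0 : ℝ) < n := by exact_mod_cast hn0
  have hcont : Continuous fun θ : ℝ => l2q κ (Real.cos (φ - θ)) :=
    (l2q_cont κ hκ).comp (Real.continuous_cos.comp (by fun_prop))
  have hii : ∀ a b : ℝ, IntervalIntegrable (fun θ : ℝ => l2q κ (Real.cos (φ - θ))) volume a b :=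
    fun a b => hcont.intervalIntegrable a b
  -- each term
  have hterm : ∀ j ∈ Finset.range n, 2 * π / n * l2q κ (Real.cos (φ - 2 * π * j / n)) ≤
      (∫ θ in (2 * π * j / n)..(2 * π * ((j + 1 : ℕ) : ℝ) / n), l2q κ (Real.cos (φ - θ))) +
        2 * π / n * (2 / κ ^ 2 * (2 * π / n)) := by
    intro j _
    have hle : 2 * π * j / n ≤ 2 * π * ((j + 1 : ℕ) : ℝ) / n := by
      push_cast
      gcongr
      linarith
    have hlen : 2 * π * ((j + 1 : ℕ) : ℝ) / n - 2 * π * j / n = 2 * π / n := by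
      push_cast
      ring
    have h1 : ∫ θ in (2 * π * j / n)..(2 * π * ((j + 1 : ℕ) : ℝ) / n),
        (l2q κ (Real.cos (φ - 2 * π * j / n)) - 2 / κ ^ 2 * (2 * π / n)) ≤
        ∫ θ in (2 * π * j / n)..(2 * π * ((j + 1 : ℕ) : ℝ) / n), l2q κ (Real.cos (φ - θ)) := by
      apply intervalIntegral.integral_mono_on hle intervalIntegrable_const (hii _ _)
      intro θ hθ
      have h2 := l2q_lip κ hκ (Real.cos (φ - 2 * π * j / n)) (Real.cos (φ - θ))
        (Real.abs_cos_le_one _) (Real.abs_cos_le_one _)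
      have h3 : |Real.cos (φ - 2 * π * j / n) - Real.cos (φ - θ)| ≤ 2 * π / n := by
        have h4 : |Real.cos (φ - 2 * π * j / n) - Real.cos (φ - θ)| ≤
            |(φ - 2 * π * j / n) - (φ - θ)| := by
          have := Real.lipschitzWith_cos.dist_le_mul (φ - 2 * π * j / n) (φ - θ)
          rwa [Real.dist_eq, Real.dist_eq, NNReal.coe_one, one_mul] at this
        calc _ ≤ |(φ - 2 * π * j / n) - (φ - θ)| := h4
          _ = θ - 2 * π * j / n := by
            rw [show (φ - 2 * π * j / n) - (φ - θ) = θ - 2 * π * j / n by ring]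
            exact abs_of_nonneg (by linarith [hθ.1])
          _ ≤ 2 * π / n := by linarith [hθ.2]
      have h5 : 2 / κ ^ 2 * |Real.cos (φ - 2 * π * j / n) - Real.cos (φ - θ)| ≤
          2 / κ ^ 2 * (2 * π / n) := by gcongr
      linarith
    rw [intervalIntegral.integral_const, hlen, smul_eq_mul] at h1
    linarith
  have hsum := Finset.sum_le_sum hterm
  rw [Finset.sum_add_distrib, intervalIntegral.sum_integral_adjacent_intervals
    (f := fun θ => l2q κ (Real.cos (φ - θ))) (a := fun j : ℕ => 2 * π * (j : ℝ) / n)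
    (fun k _ => hii _ _)] at hsum
  rw [← Finset.mul_sum, Finset.sum_const, Finset.card_range, nsmul_eq_mul] at hsum
  have e1 : 2 * π * ((0 : ℕ) : ℝ) / n = 0 := by simp
  have e2 : 2 * π * (n : ℝ) / n = 2 * π := by field_simp
  rw [e1, e2] at hsum
  have hper : ∫ θ in (0 : ℝ)..(2 * π), l2q κ (Real.cos (φ - θ)) =
      ∫ θ in (0 : ℝ)..(2 * π), l2q κ (Real.cos θ) := by
    rw [intervalIntegral.integral_comp_sub_left (fun θ => l2q κ (Real.cos θ)) φ]
    have hp : Function.Periodic (fun θ : ℝ => l2q κ (Real.cos θ)) (2 * π) := by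
      intro θ
      simp only [Real.cos_add_two_pi]
    have := hp.intervalIntegral_add_eq (φ - 2 * π) 0
    rw [show φ - 2 * π + 2 * π = φ - 0 by ring, zero_add] at this
    exact this
  rw [hper] at hsum
  have hn1 : 8 * π / (κ ^ 2 * ε) ≤ n := le_trans (Nat.le_ceil _) (by exact_mod_cast hn)
  have hn2 : 8 * π ≤ n * (κ ^ 2 * ε) := by
    rwa [div_le_iff₀ (by positivity)] at hn1
  have h6 : n * (2 * π / n * (2 / κ ^ 2 * (2 * π / n))) ≤ π * ε := by
    have : (n : ℝ) * (2 * π / n * (2 / κ ^ 2 * (2 * π / n))) = 8 * π * π / (κ ^ 2 * n) := by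
      field_simp
      ring
    rw [this, div_le_iff₀ (by positivity)]
    nlinarith [Real.pi_pos]
  have h7 : 2 * π / n * ∑ j ∈ Finset.range n, l2q κ (Real.cos (φ - 2 * π * j / n)) ≤
      2 * π * ε := by linarith
  have h8 : 2 * π / n * ∑ j ∈ Finset.range n, l2q κ (Real.cos (φ - 2 * π * j / n)) =
      2 * π * ((n : ℝ)⁻¹ * ∑ j ∈ Finset.range n, l2q κ (Real.cos (φ - 2 * π * j / n))) := by
    ring
  rw [h8] at h7
  exact le_of_mul_le_mul_left h7 (by positivity)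

/-! ## the one-dimensional exponential average -/

theorem l2_exp (η s : ℝ) (hη : 0 < η) :
    ‖∫ h in Ioc 0 η, Complex.exp (((2 * π * (h * s) : ℝ) : ℂ) * Complex.I)‖ ^ 2 *
      (1 + (π * η * s) ^ 2) ≤ 2 * η ^ 2 := by
  set I₀ := ∫ h in Ioc 0 η, Complex.exp (((2 * π * (h * s) : ℝ) : ℂ) * Complex.I) with hI₀
  have h1 : ‖I₀‖ ≤ η := by
    calc ‖I₀‖ ≤ ∫ h in Ioc 0 η, ‖Complex.exp (((2 * π * (h * s) : ℝ) : ℂ) * Complex.I)‖ :=
          norm_integral_le_integral_norm _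
      _ = ∫ h in Ioc 0 η, (1 : ℝ) := by
          congr 1
          ext h
          exact Complex.norm_exp_ofReal_mul_I _
      _ = η := by simp [hη.le]
  have h2 : ‖I₀‖ * (π * |s|) ≤ 1 := by
    by_cases hs : s = 0
    · simp [hs]
    have hc : (((2 * π * s : ℝ) : ℂ) * Complex.I) ≠ 0 := by
      simp [hs, Real.pi_ne_zero]
    have h3 : I₀ = (Complex.exp ((((2 * π * s : ℝ) : ℂ) * Complex.I) * (η : ℝ)) -
        Complex.exp ((((2 * π * s : ℝ) : ℂ) * Complex.I) * ((0 : ℝ) : ℂ))) /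
          (((2 * π * s : ℝ) : ℂ) * Complex.I) := by
      rw [← integral_exp_mul_complex hc, intervalIntegral.integral_of_le hη.le, hI₀]
      congr 1
      ext h
      congr 1
      push_cast
      ring
    have h4 : ‖(((2 * π * s : ℝ) : ℂ) * Complex.I)‖ = 2 * (π * |s|) := by
      rw [norm_mul, Complex.norm_I, mul_one, Complex.norm_real, Real.norm_eq_abs, abs_mul,
        abs_of_pos (by positivity : (0 : ℝ) < 2 * π)]
      ring
    have h5 : ‖Complex.exp ((((2 * π * s : ℝ) : ℂ) * Complex.I) * (η : ℝ)) -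
        Complex.exp ((((2 * π * s : ℝ) : ℂ) * Complex.I) * ((0 : ℝ) : ℂ))‖ ≤ 2 := by
      have e1 : ‖Complex.exp ((((2 * π * s : ℝ) : ℂ) * Complex.I) * (η : ℝ))‖ = 1 := by
        rw [show (((2 * π * s : ℝ) : ℂ) * Complex.I) * ((η : ℝ) : ℂ) =
          (((2 * π * s * η : ℝ) : ℂ) * Complex.I) by push_cast; ring]
        exact Complex.norm_exp_ofReal_mul_I _
      have e2 : ‖Complex.exp ((((2 * π * s : ℝ) : ℂ) * Complex.I) * ((0 : ℝ) : ℂ))‖ = 1 := by
        simp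
      calc _ ≤ _ := norm_sub_le _ _
        _ = 2 := by rw [e1, e2]; norm_num
    have hpos : 0 < π * |s| := mul_pos Real.pi_pos (abs_pos.mpr hs)
    rw [h3, norm_div, h4]
    rw [div_mul_eq_mul_div, div_le_one (by positivity)]
    nlinarith
  have h3 : 0 ≤ ‖I₀‖ := norm_nonneg _
  have h4 : ‖I₀‖ ^ 2 * (π * s) ^ 2 ≤ 1 := by
    have : ‖I₀‖ ^ 2 * (π * s) ^ 2 = (‖I₀‖ * (π * |s|)) ^ 2 := by
      rw [mul_pow, mul_pow, mul_pow, sq_abs]
    rw [this]
    have h5 : 0 ≤ ‖I₀‖ * (π * |s|) := by positivity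
    nlinarith
  have h5 : ‖I₀‖ ^ 2 ≤ η ^ 2 := by gcongr
  calc ‖I₀‖ ^ 2 * (1 + (π * η * s) ^ 2) = ‖I₀‖ ^ 2 + η ^ 2 * (‖I₀‖ ^ 2 * (π * s) ^ 2) := by ring
    _ ≤ η ^ 2 + η ^ 2 * 1 := by gcongr
    _ = 2 * η ^ 2 := by ring

/-- the phase of the `j`-th direction -/
theorem l2_phase (c : ℂ) (t : ℝ) : (c * cis t).re = ‖c‖ * Real.cos (-(Complex.arg c) - t) := by
  have h : c * cis t = (‖c‖ : ℂ) * cis (Complex.arg c + t) := by
    rw [lw_cis_add, ← mul_assoc]
    congr 1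
    unfold cis
    exact (Complex.norm_mul_exp_arg_mul_I c).symm
  rw [h, Complex.re_ofReal_mul, lw_cis_re]
  congr 1
  rw [show -(Complex.arg c) - t = -(Complex.arg c + t) by ring, Real.cos_neg]

end Pool.Agent.H24.Tri
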