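import Pool.Agent.H60.Tri.LL2A
import Pool.Agent.H24.Tri.ToolA
import Pool.Agent.H24.Tri.ToolB

set_option autoImplicit false

open MeasureTheory Set Complex Metric Filter Topology
open scoped Real ENNReal NNReal FourierTransform ComplexConjugate

namespace Pool.Agent.H24.Tri

/-- characteristic function of a measure -/
noncomputable def l2B (μ : Measure ℂ) (v : ℂ) : ℂ :=
  ∫ ξ, Complex.exp (((-(2 * π * (conj ξ * v).re) : ℝ) : ℂ) * Complex.I) ∂μ

theorem l2B_norm_le (μ : Measure ℂ) [IsFiniteMeasure μ] (v : ℂ) : ‖l2B μ v‖ ≤ μ.real univ := by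
  unfold l2B
  calc _ ≤ ∫ ξ, ‖Complex.exp (((-(2 * π * (conj ξ * v).re) : ℝ) : ℂ) * Complex.I)‖ ∂μ :=
        norm_integral_le_integral_norm _
    _ = ∫ ξ, (1 : ℝ) ∂μ := by
        congr 1
        ext ξ
        exact Complex.norm_exp_ofReal_mul_I _
    _ = μ.real univ := by simp

theorem l2B_continuous (μ : Measure ℂ) [IsFiniteMeasure μ] : Continuous (l2B μ) := by
  unfold l2B
  apply continuous_of_dominated (bound := fun _ => (1 : ℝ))
  · intro v
    apply Continuous.aestronglyMeasurable
    fun_prop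
  · intro v
    filter_upwards with ξ
    exact (Complex.norm_exp_ofReal_mul_I _).le
  · exact integrable_const _
  · filter_upwards with ξ
    fun_prop

theorem l2_identity (μ : Measure ℂ) [IsFiniteMeasure μ] (w : ℂ) (η : ℝ) :
    ∫ h in Ioc 0 η, ∫ h' in Ioc 0 η, ‖l2B μ (((h - h' : ℝ) : ℂ) * w)‖ ^ 2 =
      ∫ p, ‖∫ h in Ioc 0 η, Complex.exp (((2 * π * (h * (conj (p.1 - p.2) * w).re) : ℝ) : ℂ) *
        Complex.I)‖ ^ 2 ∂(μ.prod μ) := by
  set ν := (volume : Measure ℝ).restrict (Ioc 0 η) with hν
  let F : (ℝ × ℝ) → (ℂ × ℂ) → ℂ := fun q p =>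
    Complex.exp (((-(2 * π * ((q.1 - q.2) * (conj (p.1 - p.2) * w).re)) : ℝ) : ℂ) * Complex.I)
  have hFint : Integrable (Function.uncurry F) ((ν.prod ν).prod (μ.prod μ)) := by
    apply Integrable.of_bound (C := 1)
    · apply Continuous.aestronglyMeasurable
      show Continuous fun z : (ℝ × ℝ) × (ℂ × ℂ) => Complex.exp
        (((-(2 * π * ((z.1.1 - z.1.2) * (conj (z.2.1 - z.2.2) * w).re)) : ℝ) : ℂ) * Complex.I)
      fun_prop
    · filter_upwards with z
      exact (Complex.norm_exp_ofReal_mul_I _).le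
  have hswap : ∫ q, ∫ p, F q p ∂(μ.prod μ) ∂(ν.prod ν) = ∫ p, ∫ q, F q p ∂(ν.prod ν) ∂(μ.prod μ) :=
    integral_integral_swap hFint
  have h1 : ∀ q : ℝ × ℝ, ∫ p, F q p ∂(μ.prod μ) =
      ((‖l2B μ (((q.1 - q.2 : ℝ) : ℂ) * w)‖ ^ 2 : ℝ) : ℂ) := by
    intro q
    have e1 : ∀ p : ℂ × ℂ, F q p =
        (fun ξ : ℂ => Complex.exp (((-(2 * π * (conj ξ * (((q.1 - q.2 : ℝ) : ℂ) * w)).re) : ℝ) : ℂ)
          * Complex.I)) p.1 *
        (fun ξ : ℂ => conj (Complex.exp (((-(2 * π * (conj ξ * (((q.1 - q.2 : ℝ) : ℂ) * w)).re) : ℝ)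
          : ℂ) * Complex.I))) p.2 := by
      intro p
      show Complex.exp _ = Complex.exp _ * conj (Complex.exp _)
      rw [← Complex.exp_conj, ← Complex.exp_add]
      congr 1
      have e2 : ∀ ξ : ℂ, (conj ξ * (((q.1 - q.2 : ℝ) : ℂ) * w)).re =
          (q.1 - q.2) * (conj ξ * w).re := by
        intro ξ
        rw [show conj ξ * (((q.1 - q.2 : ℝ) : ℂ) * w) = ((q.1 - q.2 : ℝ) : ℂ) * (conj ξ * w) by
          ring, Complex.re_ofReal_mul]
      rw [e2, e2, map_mul, Complex.conj_I, Complex.conj_ofReal]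
      have e3 : (conj (p.1 - p.2) * w).re = (conj p.1 * w).re - (conj p.2 * w).re := by
        rw [map_sub, sub_mul, Complex.sub_re]
      rw [e3]
      push_cast
      ring
    have e4 := integral_prod_mul (μ := μ) (ν := μ)
      (fun ξ : ℂ => Complex.exp (((-(2 * π * (conj ξ * (((q.1 - q.2 : ℝ) : ℂ) * w)).re) : ℝ) : ℂ)
          * Complex.I))
      (fun ξ : ℂ => conj (Complex.exp (((-(2 * π * (conj ξ * (((q.1 - q.2 : ℝ) : ℂ) * w)).re) : ℝ)
          : ℂ) * Complex.I)))
    rw [integral_congr_ae (Filter.Eventually.of_forall e1)]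
    refine e4.trans ?_
    rw [integral_conj, Complex.mul_conj, Complex.normSq_eq_norm_sq]
    rfl
  have h2 : ∀ p : ℂ × ℂ, ∫ q, F q p ∂(ν.prod ν) =
      ((‖∫ h, Complex.exp (((2 * π * (h * (conj (p.1 - p.2) * w).re) : ℝ) : ℂ) *
        Complex.I) ∂ν‖ ^ 2 : ℝ) : ℂ) := by
    intro p
    have e1 : ∀ q : ℝ × ℝ, F q p =
        (fun h : ℝ => conj (Complex.exp (((2 * π * (h * (conj (p.1 - p.2) * w).re) : ℝ) : ℂ) *
        Complex.I))) q.1 *
        (fun h : ℝ => (Complex.exp (((2 * π * (h * (conj (p.1 - p.2) * w).re) : ℝ) : ℂ) *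
        Complex.I))) q.2 := by
      intro q
      show Complex.exp _ = conj (Complex.exp _) * Complex.exp _
      rw [← Complex.exp_conj, ← Complex.exp_add]
      congr 1
      rw [map_mul, Complex.conj_I, Complex.conj_ofReal]
      push_cast
      ring
    have e4 := integral_prod_mul (μ := ν) (ν := ν)
      (fun h : ℝ => conj (Complex.exp (((2 * π * (h * (conj (p.1 - p.2) * w).re) : ℝ) : ℂ) *
        Complex.I)))
      (fun h : ℝ => (Complex.exp (((2 * π * (h * (conj (p.1 - p.2) * w).re) : ℝ) : ℂ) *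
        Complex.I)))
    rw [integral_congr_ae (Filter.Eventually.of_forall e1)]
    refine e4.trans ?_
    rw [integral_conj, mul_comm, Complex.mul_conj, Complex.normSq_eq_norm_sq]
  simp only [h1, h2] at hswap
  rw [integral_complex_ofReal, integral_complex_ofReal] at hswap
  have h3 := Complex.ofReal_injective hswap
  rw [← h3, integral_prod]
  have hc : Continuous fun q : ℝ × ℝ => ‖l2B μ (((q.1 - q.2 : ℝ) : ℂ) * w)‖ ^ 2 := by
    apply Continuous.pow
    apply Continuous.norm
    apply (l2B_continuous μ).comp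
    fun_prop
  refine Integrable.of_bound hc.aestronglyMeasurable ((μ.real univ) ^ 2) ?_
  filter_upwards with q
  rw [Real.norm_of_nonneg (by positivity)]
  gcongr
  exact l2B_norm_le μ _

/-- spectral average with a Fejer type weight -/
theorem l2_spectral (α : ℂ) (hα : α ≠ 0) (K δ : ℝ) (hK : 1 ≤ K) (hδ : 0 < δ) :
    ∃ H₀ : ℝ, 1 ≤ H₀ ∧ ∃ n₀ : ℕ, ∀ H : ℝ, H₀ ≤ H → ∀ n : ℕ, n₀ ≤ n → 0 < n → ∀ R : ℝ, 0 < R →
    ∀ μ : Measure ℂ, IsFiniteMeasure μ → ∀ m : ℝ,
      (∀ ξ₀ : ℂ, μ.real (closedBall ξ₀ (R / K)) ≤ m) →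
      (n : ℝ)⁻¹ * ∑ j ∈ Finset.range n, ((H / R) ^ 2)⁻¹ * ∫ h in Ioc 0 (H / R),
        ∫ h' in Ioc 0 (H / R), ‖l2B μ (((h - h' : ℝ) : ℂ) *
          (Complex.I * α * cis (2 * π * j / n)))‖ ^ 2 ≤
        μ.real univ * m + δ * (μ.real univ) ^ 2 := by
  obtain ⟨κ, hκ, n₀, hn₀⟩ := l2_sum (δ / 2) (by positivity)
  have hα' : 0 < ‖α‖ := norm_pos_iff.mpr hα
  refine ⟨max 1 (K / (π * ‖α‖ * κ)), le_max_left _ _, n₀, ?_⟩
  intro H hH n hn hn0 R hR μ hμ m hm
  have hn' : (0 : ℝ) < n := by exact_mod_cast hn0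
  have hH1 : 1 ≤ H := le_trans (le_max_left _ _) hH
  have hH2 : K / (π * ‖α‖ * κ) ≤ H := le_trans (le_max_right _ _) hH
  have hη : 0 < H / R := by positivity
  set η := H / R with hηd
  simp only [l2_identity μ _ η]
  -- the weight
  set I₁ : ℕ → ℂ × ℂ → ℝ := fun j p => ‖∫ h in Ioc 0 η, Complex.exp (((2 * π * (h *
    (conj (p.1 - p.2) * (Complex.I * α * cis (2 * π * j / n))).re) : ℝ) : ℂ) * Complex.I)‖ ^ 2
    with hI₁
  have hI_le : ∀ j p, I₁ j p ≤ η ^ 2 := by
    intro j p
    have : ‖∫ h in Ioc 0 η, Complex.exp (((2 * π * (h *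
      (conj (p.1 - p.2) * (Complex.I * α * cis (2 * π * j / n))).re) : ℝ) : ℂ) *
        Complex.I)‖ ≤ η := by
      calc _ ≤ ∫ h in Ioc 0 η, ‖Complex.exp (((2 * π * (h *
          (conj (p.1 - p.2) * (Complex.I * α * cis (2 * π * j / n))).re) : ℝ) : ℂ) *
            Complex.I)‖ := norm_integral_le_integral_norm _
        _ = ∫ h in Ioc 0 η, (1 : ℝ) := by
            congr 1
            ext h
            exact Complex.norm_exp_ofReal_mul_I _
        _ = η := by simp [hη.le]
    show _ ^ 2 ≤ η ^ 2
    gcongr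
  have hI_nonneg : ∀ j p, 0 ≤ I₁ j p := fun j p => by positivity
  have hI_meas : ∀ j, AEStronglyMeasurable (I₁ j) (μ.prod μ) := by
    intro j
    apply Continuous.aestronglyMeasurable
    apply Continuous.pow
    apply Continuous.norm
    apply continuous_of_dominated (bound := fun _ => (1 : ℝ))
    · intro v
      apply Continuous.aestronglyMeasurable
      fun_prop
    · intro v
      filter_upwards with ξ
      exact (Complex.norm_exp_ofReal_mul_I _).le
    · exact integrable_const _
    · filter_upwards with ξ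
      fun_prop
  have hI_int : ∀ j, Integrable (I₁ j) (μ.prod μ) := by
    intro j
    apply Integrable.of_bound (hI_meas j) (C := η ^ 2)
    filter_upwards with p
    rw [Real.norm_of_nonneg (hI_nonneg j p)]
    exact hI_le j p
  -- pull the sum inside
  have hL : (n : ℝ)⁻¹ * ∑ j ∈ Finset.range n, (η ^ 2)⁻¹ * ∫ p, I₁ j p ∂(μ.prod μ) =
      ∫ p, (n : ℝ)⁻¹ * ∑ j ∈ Finset.range n, (η ^ 2)⁻¹ * I₁ j p ∂(μ.prod μ) := by
    rw [integral_const_mul, integral_finsetSum]
    · simp only [integral_const_mul]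
    · intro j _
      exact (hI_int j).const_mul _
  rw [hL]
  -- pointwise bound of the weight
  have hW : ∀ p : ℂ × ℂ, (n : ℝ)⁻¹ * ∑ j ∈ Finset.range n, (η ^ 2)⁻¹ * I₁ j p ≤
      (closedBall (0 : ℂ) (R / K)).indicator (fun _ => (1 : ℝ)) (p.2 - p.1) + δ := by
    intro p
    by_cases hp : p.2 - p.1 ∈ closedBall (0 : ℂ) (R / K)
    · rw [Set.indicator_of_mem hp]
      have : (n : ℝ)⁻¹ * ∑ j ∈ Finset.range n, (η ^ 2)⁻¹ * I₁ j p ≤ 1 := by
        calc _ ≤ (n : ℝ)⁻¹ * ∑ j ∈ Finset.range n, (1 : ℝ) := by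
              gcongr with j _
              rw [inv_mul_le_iff₀ (by positivity), mul_one]
              exact hI_le j p
          _ = 1 := by
              rw [Finset.sum_const, Finset.card_range, nsmul_eq_mul, mul_one]
              field_simp
      linarith
    · rw [Set.indicator_of_notMem hp, zero_add]
      have hp' : R / K < ‖p.1 - p.2‖ := by
        rw [mem_closedBall, dist_zero_right, not_le] at hp
        rwa [norm_sub_rev] at hp
      set c : ℂ := conj (p.1 - p.2) * (Complex.I * α) with hc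
      have hcn : ‖c‖ = ‖p.1 - p.2‖ * ‖α‖ := by
        rw [hc, norm_mul, norm_mul, Complex.norm_I, one_mul, Complex.norm_conj]
      have hterm : ∀ j ∈ Finset.range n, (η ^ 2)⁻¹ * I₁ j p ≤
          2 * l2q κ (Real.cos (-(Complex.arg c) - 2 * π * j / n)) := by
        intro j _
        have hs : (conj (p.1 - p.2) * (Complex.I * α * cis (2 * π * j / n))).re =
            ‖c‖ * Real.cos (-(Complex.arg c) - 2 * π * j / n) := by
          rw [← l2_phase]
          congr 1
          rw [hc]
          ring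
        have h1 := l2_exp η (conj (p.1 - p.2) * (Complex.I * α * cis (2 * π * j / n))).re hη
        have h2 : I₁ j p * (1 + (π * η * (‖c‖ * Real.cos (-(Complex.arg c) - 2 * π * j / n))) ^ 2) ≤
            2 * η ^ 2 := by
          rw [← hs]
          exact h1
        set x := Real.cos (-(Complex.arg c) - 2 * π * j / n) with hx
        have h3 : 1 / κ ≤ π * η * ‖c‖ := by
          have e1 : 1 / κ ≤ π * (H / K) * ‖α‖ := by
            have : K ≤ H * (π * ‖α‖ * κ) := by
              rwa [div_le_iff₀ (by positivity)] at hH2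
            rw [div_le_iff₀ hκ]
            have e2 : π * (H / K) * ‖α‖ * κ = H * (π * ‖α‖ * κ) / K := by ring
            rw [e2, le_div_iff₀ (by positivity)]
            linarith
          calc 1 / κ ≤ π * (H / K) * ‖α‖ := e1
            _ = π * η * (R / K * ‖α‖) := by
                rw [hηd]
                field_simp
            _ ≤ π * η * ‖c‖ := by
                rw [hcn]
                gcongr
        have h4 : (1 / κ) ^ 2 * x ^ 2 ≤ (π * η * (‖c‖ * x)) ^ 2 := by
          rw [← mul_assoc (π * η), mul_pow (π * η * ‖c‖)]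
          gcongr
        have h5 : I₁ j p * (1 + (1 / κ) ^ 2 * x ^ 2) ≤ 2 * η ^ 2 := by
          refine le_trans ?_ h2
          have := hI_nonneg j p
          gcongr
        have h6 : 1 + (1 / κ) ^ 2 * x ^ 2 = (κ ^ 2 + x ^ 2) / κ ^ 2 := by
          field_simp
        rw [h6] at h5
        rw [inv_mul_le_iff₀ (by positivity)]
        have h7 : 0 < (κ ^ 2 + x ^ 2) / κ ^ 2 := by positivity
        calc I₁ j p ≤ 2 * η ^ 2 / ((κ ^ 2 + x ^ 2) / κ ^ 2) := by
              rwa [le_div_iff₀ h7]
          _ = η ^ 2 * (2 * l2q κ x) := by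
              unfold l2q
              field_simp
      calc (n : ℝ)⁻¹ * ∑ j ∈ Finset.range n, (η ^ 2)⁻¹ * I₁ j p
          ≤ (n : ℝ)⁻¹ * ∑ j ∈ Finset.range n,
            2 * l2q κ (Real.cos (-(Complex.arg c) - 2 * π * j / n)) := by
            exact mul_le_mul_of_nonneg_left (Finset.sum_le_sum hterm) (by positivity)
        _ = 2 * ((n : ℝ)⁻¹ * ∑ j ∈ Finset.range n,
            l2q κ (Real.cos (-(Complex.arg c) - 2 * π * j / n))) := by
            rw [← Finset.mul_sum]
            ring
        _ ≤ 2 * (δ / 2) := by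
            gcongr
            exact hn₀ n hn hn0 _
        _ = δ := by ring
  -- integrate
  have hind_meas : MeasurableSet {p : ℂ × ℂ | p.2 - p.1 ∈ closedBall (0 : ℂ) (R / K)} :=
    measurableSet_closedBall.preimage (by fun_prop)
  have hind : (fun p : ℂ × ℂ => (closedBall (0 : ℂ) (R / K)).indicator (fun _ => (1 : ℝ))
      (p.2 - p.1)) = {p : ℂ × ℂ | p.2 - p.1 ∈ closedBall (0 : ℂ) (R / K)}.indicator
        (fun _ => (1 : ℝ)) := by
    ext p
    by_cases hp : p.2 - p.1 ∈ closedBall (0 : ℂ) (R / K)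
    · rw [Set.indicator_of_mem hp, Set.indicator_of_mem]
      exact hp
    · rw [Set.indicator_of_notMem hp, Set.indicator_of_notMem]
      exact hp
  have hint_ind : Integrable (fun p : ℂ × ℂ => (closedBall (0 : ℂ) (R / K)).indicator
      (fun _ => (1 : ℝ)) (p.2 - p.1)) (μ.prod μ) := by
    rw [hind]
    exact (integrable_const (1 : ℝ)).indicator hind_meas
  calc ∫ p, (n : ℝ)⁻¹ * ∑ j ∈ Finset.range n, (η ^ 2)⁻¹ * I₁ j p ∂(μ.prod μ)
      ≤ ∫ p, ((closedBall (0 : ℂ) (R / K)).indicator (fun _ => (1 : ℝ)) (p.2 - p.1) + δ)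
          ∂(μ.prod μ) := by
        apply integral_mono_of_nonneg
        · filter_upwards with p
          have := fun j => hI_nonneg j p
          positivity
        · exact hint_ind.add (integrable_const _)
        · filter_upwards with p
          exact hW p
    _ = (∫ p, (closedBall (0 : ℂ) (R / K)).indicator (fun _ => (1 : ℝ)) (p.2 - p.1) ∂(μ.prod μ)) +
          δ * (μ.real univ) ^ 2 := by
        rw [integral_add hint_ind (integrable_const _), integral_const, smul_eq_mul]
        congr 1
        rw [measureReal_def, ← univ_prod_univ, Measure.prod_prod, ENNReal.toReal_mul, ← measureReal_def]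
        ring
    _ ≤ μ.real univ * m + δ * (μ.real univ) ^ 2 := by
        gcongr
        rw [integral_prod _ hint_ind]
        calc ∫ x, ∫ y, (closedBall (0 : ℂ) (R / K)).indicator (fun _ => (1 : ℝ)) (y - x) ∂μ ∂μ
            ≤ ∫ x, m ∂μ := by
              apply integral_mono_of_nonneg
              · filter_upwards with x
                apply integral_nonneg
                intro y
                apply Set.indicator_nonneg
                intro _ _
                norm_num
              · exact integrable_const _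
              · filter_upwards with x
                have e : (fun y : ℂ => (closedBall (0 : ℂ) (R / K)).indicator (fun _ => (1 : ℝ))
                    (y - x)) = (closedBall x (R / K)).indicator (fun _ => (1 : ℝ)) := by
                  ext y
                  by_cases hy : y ∈ closedBall x (R / K)
                  · rw [Set.indicator_of_mem hy, Set.indicator_of_mem]
                    rw [mem_closedBall, dist_zero_right]
                    rwa [mem_closedBall, dist_eq_norm] at hy
                  · rw [Set.indicator_of_notMem hy, Set.indicator_of_notMem]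
                    rw [mem_closedBall, dist_zero_right]
                    rwa [mem_closedBall, dist_eq_norm] at hy
                simp only [e]
                rw [integral_indicator measurableSet_closedBall, setIntegral_const, smul_eq_mul,
                  mul_one]
                exact hm x
          _ = μ.real univ * m := by rw [integral_const, smul_eq_mul]

end Pool.Agent.H24.Tri
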